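import Mathlib

set_option autoImplicit false

namespace Pool.Agent.Results.MP_1e0c69_ag.Counter
open MvPolynomial

/-- Waring rank in degree `d`: the least `w` with `F` a sum of `w` `d`-th powers of linear forms. -/
noncomputable def WR {σ : Type} (d : ℕ) (F : MvPolynomial σ ℂ) : ℕ∞ :=
  ⨅ (w : ℕ) (_ : ∃ l : Fin w → MvPolynomial σ ℂ, (∀ i, (l i).IsHomogeneous 1) ∧ F = ∑ i, l i ^ d),
    (w : ℕ∞)

lemma lin {l : MvPolynomial (Fin 3) ℂ} (h : l.IsHomogeneous 1) :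
    ∃ a : Fin 3 → ℂ, ∀ q : Fin 3 → ℂ, eval q l = a 0 * q 0 + a 1 * q 1 + a 2 * q 2 := by
  rw [← mem_homogeneousSubmodule, homogeneousSubmodule_one_eq_span_X] at h
  induction h using Submodule.span_induction with
  | mem x hx =>
    obtain ⟨i, rfl⟩ := hx
    exact ⟨Pi.single i 1, fun q => by fin_cases i <;> simp⟩
  | zero => exact ⟨0, by simp⟩
  | add x y _ _ hx hy =>
    obtain ⟨a, ha⟩ := hx
    obtain ⟨b, hb⟩ := hy
    exact ⟨a + b, fun q => by simp [ha, hb]; ring⟩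
  | smul c x _ hx =>
    obtain ⟨a, ha⟩ := hx
    exact ⟨c • a, fun q => by simp [ha]; ring⟩

noncomputable def f : MvPolynomial (Fin 3) ℂ :=
  X 0 ^ 3 + C 2 * X 1 ^ 3 + C 3 * X 2 ^ 3 - (X 0 + C 2 * X 1 + C 3 * X 2) ^ 3
noncomputable def g : MvPolynomial (Fin 3) ℂ :=
  C 3 * (X 0 ^ 2 + C 2 * X 1 ^ 2 + C 3 * X 2 ^ 2 - (X 0 + C 2 * X 1 + C 3 * X 2) ^ 2)

lemma hm : (X 0 + C 2 * X 1 + C 3 * X 2 : MvPolynomial (Fin 3) ℂ).IsHomogeneous 1 :=
  ((isHomogeneous_X _ _).add ((isHomogeneous_X _ _).C_mul _)).add ((isHomogeneous_X _ _).C_mul _)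

lemma hf : f.IsHomogeneous 3 :=
  (((isHomogeneous_X_pow _ _).add ((isHomogeneous_X_pow _ _).C_mul _)).add
    ((isHomogeneous_X_pow _ _).C_mul _)).sub (hm.pow 3)

lemma hg : g.IsHomogeneous 2 :=
  ((((isHomogeneous_X_pow _ _).add ((isHomogeneous_X_pow _ _).C_mul _)).add
    ((isHomogeneous_X_pow _ _).C_mul _)).sub (hm.pow 2)).C_mul _

lemma lower {v : MvPolynomial (Fin 3) ℂ} (hv : v.IsHomogeneous 1) : 3 ≤ WR 3 (f + v * g) := by
  refine le_iInf₂ fun w ⟨l, hl, h⟩ => ?_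
  by_contra hw
  have hw : w < 3 := by exact_mod_cast not_le.1 hw
  choose A hA using fun i => lin (hl i)
  obtain ⟨p, hp, hp0⟩ := (Submodule.ne_bot_iff _).1
    (LinearMap.ker_ne_bot_of_finrank_lt (f := Matrix.toLin' (Matrix.of A)) (by simpa using hw))
  have hp' : ∀ i, A i 0 * p 0 + A i 1 * p 1 + A i 2 * p 2 = 0 := by
    intro i
    have := congrFun (LinearMap.mem_ker.1 hp) i
    simpa [Matrix.mulVec, dotProduct, Fin.sum_univ_three] using this
  have inv : ∀ q : Fin 3 → ℂ, eval (q + p) (f + v * g) = eval q (f + v * g) := by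
    intro q
    rw [h]
    simp only [map_sum, map_pow, hA, Pi.add_apply]
    refine Finset.sum_congr rfl fun i _ => ?_
    congr 1
    linear_combination hp' i
  obtain ⟨B, hB⟩ := lin hv
  obtain ⟨a, ha⟩ : ∃ a, a = B 0 := ⟨_, rfl⟩
  obtain ⟨b, hb⟩ : ∃ a, a = B 1 := ⟨_, rfl⟩
  obtain ⟨c, hc⟩ : ∃ a, a = B 2 := ⟨_, rfl⟩
  simp only [map_add, map_mul, hB, ← ha, ← hb, ← hc, f, g, map_sub, map_pow, eval_X, eval_C,
    Pi.add_apply] at inv
  have i0 := inv ![0,0,0]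
  have i100 := inv ![1,0,0]
  have i010 := inv ![0,1,0]
  have i001 := inv ![0,0,1]
  have i200 := inv ![2,0,0]
  have i020 := inv ![0,2,0]
  have i002 := inv ![0,0,2]
  have i110 := inv ![1,1,0]
  have i101 := inv ![1,0,1]
  have i011 := inv ![0,1,1]
  simp only [Matrix.cons_val] at i0 i100 i010 i001 i200 i020 i002 i110 i101 i011
  have E00 : (-3)*p 2 + (-2)*p 1 + (-6)*a*p 2 + (-4)*a*p 1 = (0 : ℂ) := by
    linear_combination (i200 - i100 - i100 + i0) / 6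
  have E01 : (-6)*p 2 + (-4)*p 1 + (-2)*p 0 + (-2)*c*p 2 + (-3)*b*p 2 + (-4)*b*p 1 + (-6)*a*p 2 + (-2)*a*p 1 + (-4)*a*p 0 = (0 : ℂ) := by
    linear_combination (i110 - i100 - i010 + i0) / 6
  have E02 : (-9)*p 2 + (-6)*p 1 + (-3)*p 0 + (-6)*c*p 2 + (-2)*c*p 1 + (-3)*b*p 1 + (-6)*a*p 2 + (-6)*a*p 1 + (-6)*a*p 0 = (0 : ℂ) := by
    linear_combination (i101 - i100 - i001 + i0) / 6
  have E11 : (-12)*p 2 + (-6)*p 1 + (-4)*p 0 + (-2)*c*p 2 + (-12)*b*p 2 + (-6)*b*p 1 + (-4)*b*p 0 + (-2)*a*p 0 = (0 : ℂ) := by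
    linear_combination (i020 - i010 - i010 + i0) / 6
  have E12 : (-18)*p 2 + (-12)*p 1 + (-6)*p 0 + (-12)*c*p 2 + (-2)*c*p 1 + (-2)*c*p 0 + (-6)*b*p 2 + (-12)*b*p 1 + (-3)*b*p 0 + (-6)*a*p 0 = (0 : ℂ) := by
    linear_combination (i011 - i010 - i001 + i0) / 6
  have E22 : (-24)*p 2 + (-18)*p 1 + (-9)*p 0 + (-18)*c*p 2 + (-12)*c*p 1 + (-6)*c*p 0 + (-6)*b*p 1 + (-6)*a*p 0 = (0 : ℂ) := by
    linear_combination (i002 - i001 - i001 + i0) / 6
  have z0 : p 0 = 0 := by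
    linear_combination ((3481/2100) + (7093/3150)*c + (6757/1575)*c^2 + (473/150)*b + (-581/75)*b*c + (4751/600)*b^2 + (-3511/700)*a + (-524/175)*a*c + (-42/25)*a*b + (363/175)*a^2)*E00 + ((-2903/2100) + (11378/1575)*c + (112/225)*c^2 + (-4891/600)*b + (281/150)*b*c + (-86/75)*b^2 + (-571/100)*a + (787/175)*a*c + (-1041/100)*a*b + (-363/350)*a^2)*E01 + ((-23/100) + (-11429/3150)*c + (-113/225)*c^2 + (373/75)*b + (103/75)*b*c + (-97/150)*b^2 + (-2057/700)*a + (-888/175)*a*c + (96/25)*a*b + (-363/350)*a^2)*E02 + ((1381/2100) + (4784/1575)*c + (566/225)*c^2 + (-1013/600)*b + (-89/50)*b*c + (43/50)*b^2 + (397/100)*a + (-109/175)*a*c + (-63/100)*a*b + (2241/350)*a^2)*E11 + ((-711/700) + (-5839/3150)*c + (-113/225)*c^2 + (-2479/900)*b + (-857/450)*b*c + (-86/75)*b^2 + (-221/100)*a + (87/175)*a*c + (17/50)*a*b + (-1413/350)*a^2)*E12 + ((1381/2100) + (-253/350)*c + (113/675)*c^2 + (209/75)*b + (-178/225)*b*c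 + (2269/900)*b^2 + (5917/2100)*a + (-262/525)*a*c + (18/25)*a*b + (1271/350)*a^2)*E22
  have z1 : p 1 = 0 := by
    linear_combination ((1537/2100) + (27731/3150)*c + (7039/1575)*c^2 + (787/50)*b + (773/75)*b*c + (5327/600)*b^2 + (-15781/2100)*a + (-3004/525)*a*c + (-862/75)*a*b + (8513/525)*a^2)*E00 + ((-26071/2100) + (-9269/1575)*c + (-476/225)*c^2 + (-3667/600)*b + (9/50)*b*c + (28/75)*b^2 + (-7841/300)*a + (-2873/525)*a*c + (-4051/300)*a*b + (-8513/1050)*a^2)*E01 + ((-5479/900) + (-7073/3150)*c + (11/25)*c^2 + (-277/225)*b + (353/225)*b*c + (-119/150)*b^2 + (-116441/6300)*a + (-12344/1575)*a*c + (-194/75)*a*b + (-8513/1050)*a^2)*E02 + ((2587/2100) + (-4012/1575)*c + (-118/225)*c^2 + (-881/600)*b + (37/50)*b*c + (-7/25)*b^2 + (3307/300)*a + (-1739/525)*a*c + (-431/100)*a*b + (5497/350)*a^2)*E11 + ((33157/6300) + (8657/3150)*c + (11/25)*c^2 + (2777/900)*b + (-269/450)*b*c + (28/75)*b^2 + (10367/900)*a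 + (8531/1575)*a*c + (1037/150)*a*b + (79/350)*a^2)*E12 + ((1537/2100) + (-949/3150)*c + (-11/75)*c^2 + (-436/225)*b + (74/225)*b*c + (-287/900)*b^2 + (29587/6300)*a + (-1502/1575)*a*c + (-1006/225)*a*b + (25363/3150)*a^2)*E22
  have z2 : p 2 = 0 := by
    linear_combination ((-598/525) + (-10688/1575)*c + (-4114/1575)*c^2 + (-1601/150)*b + (-733/75)*b*c + (-319/75)*b^2 + (1308/175)*a + (988/175)*a*c + (224/25)*a*b + (-2416/175)*a^2)*E00 + ((4169/525) + (6919/1575)*c + (-124/225)*c^2 + (463/150)*b + (283/150)*b*c + (47/75)*b^2 + (413/25)*a + (1431/175)*a*c + (38/25)*a*b + (1208/175)*a^2)*E01 + ((317/75) + (1744/1575)*c + (26/225)*c^2 + (203/150)*b + (4/75)*b*c + (-281/150)*b^2 + (6838/525)*a + (1018/525)*a*c + (163/25)*a*b + (1208/175)*a^2)*E02 + ((-598/525) + (367/1575)*c + (-32/225)*c^2 + (142/75)*b + (23/50)*b*c + (-47/100)*b^2 + (-186/25)*a + (-67/175)*a*c + (84/25)*a*b + (-1431/175)*a^2)*E11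 + ((-1466/525) + (-2146/1575)*c + (26/225)*c^2 + (-203/225)*b + (-113/225)*b*c + (47/75)*b^2 + (-526/75)*a + (-1132/525)*a*c + (-99/50)*a*b + (-717/175)*a^2)*E12 + ((-141/175) + (108/175)*c + (-26/675)*c^2 + (3/50)*b + (46/225)*b*c + (-119/450)*b^2 + (-652/175)*a + (494/525)*a*c + (62/75)*a*b + (-2458/525)*a^2)*E22
  apply hp0
  funext i
  fin_cases i
  · exact z0
  · exact z1
  · exact z2

lemma upper : WR 3 (rename some f + X none * rename some g) ≤ 5 := by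
  obtain ⟨r2, h2⟩ := IsAlgClosed.exists_pow_nat_eq (2 : ℂ) (show 0 < 3 by norm_num)
  obtain ⟨r3, h3⟩ := IsAlgClosed.exists_pow_nat_eq (3 : ℂ) (show 0 < 3 by norm_num)
  obtain ⟨r5, h5⟩ := IsAlgClosed.exists_pow_nat_eq (5 : ℂ) (show 0 < 3 by norm_num)
  refine iInf₂_le (5 : ℕ) ⟨![X none + X (some 0), C r2 * (X none + X (some 1)),
    C r3 * (X none + X (some 2)), -(X none + (X (some 0) + C 2 * X (some 1) + C 3 * X (some 2))),
    -(C r5 * X none)], ?_, ?_⟩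
  · intro i
    fin_cases i
    · exact (isHomogeneous_X _ _).add (isHomogeneous_X _ _)
    · exact ((isHomogeneous_X _ _).add (isHomogeneous_X _ _)).C_mul _
    · exact ((isHomogeneous_X _ _).add (isHomogeneous_X _ _)).C_mul _
    · exact ((isHomogeneous_X _ _).add (((isHomogeneous_X _ _).add
        ((isHomogeneous_X _ _).C_mul _)).add ((isHomogeneous_X _ _).C_mul _))).neg
    · exact ((isHomogeneous_X _ _).C_mul _).neg
  · apply MvPolynomial.funext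
    intro q
    simp [Fin.sum_univ_five, f, g]
    linear_combination -(q none + q (some 1)) ^ 3 * h2 - (q none + q (some 2)) ^ 3 * h3 +
      q none ^ 3 * h5

theorem result : ∃ (n d : ℕ) (f g : MvPolynomial (Fin n) ℂ), 1 ≤ n ∧ 1 ≤ d ∧
    f.IsHomogeneous d ∧ g.IsHomogeneous (d - 1) ∧ f ≠ 0 ∧ g ≠ 0 ∧
    WR d (rename some f + X none * rename some g) <
      d + ⨅ (v : MvPolynomial (Fin n) ℂ) (_ : v.IsHomogeneous 1), WR d (f + v * g) := by
  refine ⟨3, 3, f, g, by norm_num, by norm_num, hf, hg, fun h => ?_, fun h => ?_, ?_⟩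
  · have := congrArg (eval ![0, 1, 0]) h
    simp [f] at this
    norm_num at this
  · have := congrArg (eval ![0, 1, 0]) h
    simp [g] at this
    norm_num at this
  · refine upper.trans_lt (lt_of_lt_of_le (show (5 : ℕ∞) < (3 : ℕ) + 3 by norm_num) ?_)
    exact add_le_add le_rfl (le_iInf₂ fun v hv => lower hv)

end Pool.Agent.Results.MP_1e0c69_ag.Counter
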